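import Pool.Agent.Lib.MP_76d46b_ag.Main

/-!
# Moduli spaces of wildly ramified `P`-Galois covers need not be irreducible

For every prime `p`, every algebraically closed field `k` of characteristic `p` and
`P = (ℤ/p)²`, the moduli space `|𝓜_η|` of `P`-Galois covers with `g_X = 0`,
`g_Y = (p - 1)(3p - 1)` and four branch points, all with degree of the different `2p(p - 1)`, is
nonempty and reducible; it is the disjoint union of two nonempty open and closed subsets that are
stable under the action of the automorphism group of `P`.
-/

universe u

namespace Pool.Agent.Results.MP_76d46b_ag.Reducible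

open Pool.Agent.Lib.MP_76d46b_ag

theorem result (p : ℕ) [Fact p.Prime] (k : Type u) [Field k] [IsAlgClosed k] [CharP k p] :
    Nonempty (Moduli.{u} k (Multiplicative (ZMod p × ZMod p)) 0 ((p - 1) * (3 * p - 1))
      (Multiset.replicate 4 (2 * p * (p - 1)))) ∧
    ¬ IrreducibleSpace (Moduli.{u} k (Multiplicative (ZMod p × ZMod p)) 0
      ((p - 1) * (3 * p - 1)) (Multiset.replicate 4 (2 * p * (p - 1)))) ∧
    DisconnectedModAut.{u} k (Multiplicative (ZMod p × ZMod p)) 0 ((p - 1) * (3 * p - 1))
      (Multiset.replicate 4 (2 * p * (p - 1))) :=
  main p k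

end Pool.Agent.Results.MP_76d46b_ag.Reducible
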